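import Pool.Agent.Helper24.AL.St
import Pool.Agent.Helper56.SW.M_Deg

/-!
# MP_e188f1_nt, project AL: module CNT (residues of units modulo a divisor)
-/

set_option autoImplicit false

namespace Pool.Agent.Helper6.AL

open Finset Matrix
open Pool.Agent.Helper24.AL
open Pool.Agent.Helper56.SW (τ Γ I bx E Rel N Nq ul E_cons M_Deg_F M_Deg_rel_iff)

private theorem F_congr (e : ℕ) (l l' : ℤ) (h : ((l : ℤ) : ZMod e) = ((l' : ℤ) : ZMod e))
    (L : List (ℤ × ℤ)) : M_Deg_F e 1 l L = M_Deg_F e 1 l' L := by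
  induction L with
  | nil => simp [M_Deg_F, E]
  | cons p t ih =>
    unfold M_Deg_F at *
    rw [E_cons, E_cons, map_mul, map_mul, ih]
    congr 1
    ext i j
    fin_cases i <;> fin_cases j <;> simp [ul, h]

private theorem N_congr (e : ℕ) (l l' : ℤ) (h : ((l : ℤ) : ZMod e) = ((l' : ℤ) : ZMod e))
    (r A B : ℕ) : N e 1 l r A B = N e 1 l' r A B := by
  unfold N
  congr 1
  ext L
  simp only [mem_filter, M_Deg_rel_iff, F_congr e l l' h L]

/-- the fibres of the reduction map on units -/
private theorem fib_card (c e : ℕ) [NeZero c] [NeZero e] (hec : e ∣ c) (y : (ZMod e)ˣ) :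
    (Finset.univ.filter fun g : (ZMod c)ˣ => ZMod.unitsMap hec g = y).card * Nat.totient e =
      Nat.totient c := by
  have hsurj := ZMod.unitsMap_surjective (n := e) (m := c) hec
  have h1 : ∀ z : (ZMod e)ˣ,
      (Finset.univ.filter fun g : (ZMod c)ˣ => ZMod.unitsMap hec g = z).card =
      (Finset.univ.filter fun g : (ZMod c)ˣ => ZMod.unitsMap hec g = y).card := by
    intro z
    exact MonoidHom.card_fiber_eq_of_mem_range _ (hsurj z) (hsurj y)
  have h2 : (Finset.univ : Finset (ZMod c)ˣ).card =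
      ∑ z : (ZMod e)ˣ, (Finset.univ.filter fun g : (ZMod c)ˣ => ZMod.unitsMap hec g = z).card :=
    Finset.card_eq_sum_card_fiberwise (fun g _ => mem_univ _)
  rw [Finset.sum_congr rfl (fun z _ => h1 z), Finset.sum_const, smul_eq_mul, Finset.card_univ,
    Finset.card_univ, ZMod.card_units_eq_totient, ZMod.card_units_eq_totient] at h2
  rw [h2, mul_comm]

private theorem fib_le (c e : ℕ) (hc : 1 ≤ c) (he : 1 ≤ e) (hec : e ∣ c) (Bd : Finset ℕ)
    (hBd : Bd ⊆ Us e) :
    ((Us c).filter fun l => l % e ∈ Bd).card * Nat.totient e ≤ Bd.card * Nat.totient c := by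
  classical
  haveI : NeZero c := ⟨by omega⟩
  haveI : NeZero e := ⟨by omega⟩
  set K := (Finset.univ.filter fun g : (ZMod c)ˣ => ZMod.unitsMap hec g = 1).card with hK
  have hKφ : K * Nat.totient e = Nat.totient c := fib_card c e hec 1
  have hφe : 0 < Nat.totient e := Nat.totient_pos.2 he
  have hfib : ∀ b ∈ Bd, (((Us c).filter fun l => l % e ∈ Bd).filter fun l => l % e = b).card ≤ K := by
    intro b hb
    have hbU := hBd hb
    rw [Us, mem_filter, mem_range] at hbU
    obtain ⟨hbe, hbc⟩ := hbU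
    set u : (ZMod e)ˣ := ZMod.unitOfCoprime b hbc with hu
    have hKu : (Finset.univ.filter fun g : (ZMod c)ˣ => ZMod.unitsMap hec g = u).card = K := by
      have := fib_card c e hec u
      rw [← hKφ] at this
      exact Nat.eq_of_mul_eq_mul_right hφe this
    rw [← hKu]
    apply Finset.card_le_card_of_injOn
      (fun l : ℕ => if h : Nat.Coprime l c then ZMod.unitOfCoprime l h else 1)
    · intro l hl
      rw [mem_coe, mem_filter, mem_filter, Us, mem_filter, mem_range] at hl
      obtain ⟨⟨⟨hl1, hl2⟩, -⟩, hl3⟩ := hl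
      rw [mem_coe, mem_filter]
      refine ⟨mem_univ _, ?_⟩
      beta_reduce
      rw [dif_pos hl2]
      apply Units.ext
      rw [ZMod.unitsMap_val, ZMod.coe_unitOfCoprime, hu, ZMod.coe_unitOfCoprime,
        ZMod.cast_natCast hec, ZMod.natCast_eq_natCast_iff]
      rw [← hl3]
      exact (Nat.mod_modEq l e).symm
    · intro l hl l' hl' hll
      rw [mem_coe, mem_filter, mem_filter, Us, mem_filter, mem_range] at hl hl'
      obtain ⟨⟨⟨hl1, hl2⟩, -⟩, -⟩ := hl
      obtain ⟨⟨⟨hl1', hl2'⟩, -⟩, -⟩ := hl'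
      beta_reduce at hll
      rw [dif_pos hl2, dif_pos hl2'] at hll
      have h1 := congrArg (fun v : (ZMod c)ˣ => (v : ZMod c)) hll
      simp only [ZMod.coe_unitOfCoprime] at h1
      rw [ZMod.natCast_eq_natCast_iff] at h1
      exact Nat.ModEq.eq_of_lt_of_lt h1 hl1 hl1'
  have h3 : ((Us c).filter fun l => l % e ∈ Bd).card ≤ K * Bd.card := by
    apply Finset.card_le_mul_card_image_of_maps_to (f := fun l => l % e)
    · intro l hl
      exact (mem_filter.1 hl).2
    · exact hfib
  calc ((Us c).filter fun l => l % e ∈ Bd).card * Nat.totient e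
      ≤ (K * Bd.card) * Nat.totient e := Nat.mul_le_mul_right _ h3
    _ = Bd.card * (K * Nat.totient e) := by ring
    _ = Bd.card * Nat.totient c := by rw [hKφ]

theorem hCNT : StCNT := by
  intro δ ε C hδ hC hbad c hc
  classical
  set Y : Finset ℕ := (Us c).filter fun l => ¬ Gd C ε c l with hY
  refine ⟨Y, filter_subset _ _, ?_, ?_⟩
  · intro l hl hlY
    by_contra h
    exact hlY (by rw [hY, mem_filter]; exact ⟨hl, h⟩)
  · set Dv : Finset ℕ := c.divisors.filter fun e => c ≤ e ^ 2 with hDv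
    have hsub : Y ⊆ Dv.biUnion fun e => (Us c).filter fun l => l % e ∈ Bad C ε e := by
      intro l hl
      rw [hY, mem_filter] at hl
      obtain ⟨hlU, hlG⟩ := hl
      rw [Gd] at hlG
      push Not at hlG
      obtain ⟨e, he, hce, A, B, hA, hAB, hBe, hlt⟩ := hlG
      rw [mem_biUnion]
      refine ⟨e, by rw [hDv, mem_filter]; exact ⟨he, hce⟩, ?_⟩
      rw [mem_filter]
      refine ⟨hlU, ?_⟩
      rw [Us, mem_filter, mem_range] at hlU
      have hec : e ∣ c := Nat.dvd_of_mem_divisors he
      have he1 : 1 ≤ e := Nat.pos_of_mem_divisors he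
      have hmod : l % e < e := Nat.mod_lt _ he1
      unfold Bad
      rw [mem_filter]
      refine ⟨?_, A, B, hA, hAB, hBe, ?_⟩
      · rw [Us, mem_filter, mem_range]
        refine ⟨hmod, ?_⟩
        have h1 : Nat.Coprime l e := Nat.Coprime.coprime_dvd_right hec hlU.2
        have h2 : Nat.gcd (l % e) e = Nat.gcd l e := by
          rw [Nat.gcd_comm l e]
          exact (Nat.gcd_rec e l).symm
        unfold Nat.Coprime at h1 ⊢
        rw [h2]
        exact h1
      · have h3 : N e 1 ((l % e : ℕ) : ℤ) 3 A B = N e 1 (l : ℤ) 3 A B := by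
          apply N_congr
          rw [Int.cast_natCast, Int.cast_natCast]
          have h4 : ((l % e : ℕ) : ZMod e) = (l : ZMod e) := by
            rw [ZMod.natCast_eq_natCast_iff]
            exact Nat.mod_modEq l e
          exact h4
        rw [h3]
        exact hlt
    have hone : ∀ e ∈ Dv, ((((Us c).filter fun l => l % e ∈ Bad C ε e).card : ℕ) : ℝ) ≤
        C * (c : ℝ) ^ (-(δ / 2)) * (Nat.totient c : ℝ) := by
      intro e he
      rw [hDv, mem_filter] at he
      obtain ⟨he, hce⟩ := he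
      have hec : e ∣ c := Nat.dvd_of_mem_divisors he
      have he1 : 1 ≤ e := Nat.pos_of_mem_divisors he
      have h1 := fib_le c e hc he1 hec (Bad C ε e) (by unfold Bad; exact filter_subset _ _)
      have h2 := hbad e he1
      have hφe : (0 : ℝ) < (Nat.totient e : ℝ) := by exact_mod_cast Nat.totient_pos.2 he1
      have hφc : (0 : ℝ) ≤ (Nat.totient c : ℝ) := by positivity
      have h3 : ((((Us c).filter fun l => l % e ∈ Bad C ε e).card : ℕ) : ℝ) * (Nat.totient e : ℝ) ≤
          ((Bad C ε e).card : ℝ) * (Nat.totient c : ℝ) := by exact_mod_cast h1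
      have h4 : ((Bad C ε e).card : ℝ) * (Nat.totient c : ℝ) ≤
          (C * (e : ℝ) ^ (-δ) * (Nat.totient e : ℝ)) * (Nat.totient c : ℝ) :=
        mul_le_mul_of_nonneg_right h2 hφc
      have h5 : ((((Us c).filter fun l => l % e ∈ Bad C ε e).card : ℕ) : ℝ) ≤
          C * (e : ℝ) ^ (-δ) * (Nat.totient c : ℝ) := by
        have h6 : ((((Us c).filter fun l => l % e ∈ Bad C ε e).card : ℕ) : ℝ) * (Nat.totient e : ℝ) ≤
            (C * (e : ℝ) ^ (-δ) * (Nat.totient c : ℝ)) * (Nat.totient e : ℝ) := by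
          calc _ ≤ _ := h3
            _ ≤ _ := h4
            _ = _ := by ring
        exact le_of_mul_le_mul_right h6 hφe
      have hcr : (0 : ℝ) < c := by exact_mod_cast hc
      have her : (0 : ℝ) < e := by exact_mod_cast he1
      have h7 : (e : ℝ) ^ (-δ) ≤ (c : ℝ) ^ (-(δ / 2)) := by
        have h8 : (e : ℝ) ^ (-δ) = ((e : ℝ) ^ 2) ^ (-(δ / 2)) := by
          rw [← Real.rpow_natCast (e : ℝ) 2, ← Real.rpow_mul her.le]
          congr 1
          push_cast
          ring
        rw [h8]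
        apply Real.rpow_le_rpow_of_nonpos hcr
        · exact_mod_cast hce
        · linarith
      calc _ ≤ C * (e : ℝ) ^ (-δ) * (Nat.totient c : ℝ) := h5
        _ ≤ C * (c : ℝ) ^ (-(δ / 2)) * (Nat.totient c : ℝ) := by
          apply mul_le_mul_of_nonneg_right _ hφc
          exact mul_le_mul_of_nonneg_left h7 hC.le
    have hnn : (0 : ℝ) ≤ C * (c : ℝ) ^ (-(δ / 2)) * (Nat.totient c : ℝ) := by positivity
    calc (Y.card : ℝ) ≤ (((Dv.biUnion fun e => (Us c).filter fun l => l % e ∈ Bad C ε e).card : ℕ) : ℝ) := by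
          exact_mod_cast card_le_card hsub
      _ ≤ ((∑ e ∈ Dv, ((Us c).filter fun l => l % e ∈ Bad C ε e).card : ℕ) : ℝ) := by
          exact_mod_cast card_biUnion_le
      _ = ∑ e ∈ Dv, ((((Us c).filter fun l => l % e ∈ Bad C ε e).card : ℕ) : ℝ) := by push_cast; rfl
      _ ≤ ∑ e ∈ Dv, C * (c : ℝ) ^ (-(δ / 2)) * (Nat.totient c : ℝ) := sum_le_sum hone
      _ = Dv.card * (C * (c : ℝ) ^ (-(δ / 2)) * (Nat.totient c : ℝ)) := by
          rw [sum_const, nsmul_eq_mul]
      _ ≤ τ c * (C * (c : ℝ) ^ (-(δ / 2)) * (Nat.totient c : ℝ)) := by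
          apply mul_le_mul_of_nonneg_right _ hnn
          unfold τ
          exact_mod_cast card_le_card (filter_subset _ _)
      _ = τ c * C * (c : ℝ) ^ (-(δ / 2)) * (Nat.totient c : ℝ) := by ring

end Pool.Agent.Helper6.AL
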