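import Pool.Agent.Helper24.AL.St

/-!
# MP_e188f1_nt, project AL: module G1 (lattice points on lines)
-/

set_option autoImplicit false

namespace Pool.Agent.Helper6.AL

open Finset Matrix
open Pool.Agent.Helper24.AL
open Pool.Agent.Helper56.SW (τ Γ I bx E Rel N Nq)

/-- a set of integers with differences smaller than `D` has at most `D` elements -/
private theorem card_of_diff (T : Finset ℤ) (D : ℕ)
    (h : ∀ x ∈ T, ∀ y ∈ T, x - y < D) : T.card ≤ D := by
  rcases T.eq_empty_or_nonempty with rfl | hne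
  · simp
  · have hs : T ⊆ Finset.Ico (T.min' hne) (T.min' hne + D) := by
      intro x hx
      rw [Finset.mem_Ico]
      exact ⟨T.min'_le x hx, by have := h x hx _ (T.min'_mem hne); omega⟩
    calc T.card ≤ _ := card_le_card hs
      _ = D := by simp

/-- multiples of `L` of absolute value at most `X` -/
private theorem card_mult (T : Finset ℤ) (L X : ℕ) (hL : 1 ≤ L)
    (h : ∀ n ∈ T, (L : ℤ) ∣ n ∧ |n| ≤ X) : (T.card : ℝ) ≤ 2 * X / L + 1 := by
  have hs : T ⊆ (Finset.Icc (-((X / L : ℕ) : ℤ)) ((X / L : ℕ) : ℤ)).image (fun k => (L : ℤ) * k) := by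
    intro n hn
    obtain ⟨⟨k, hk⟩, h2⟩ := h n hn
    rw [Finset.mem_image]
    refine ⟨k, ?_, hk.symm⟩
    rw [Finset.mem_Icc, ← abs_le]
    have h3 : (L : ℤ) * |k| ≤ X := by
      rw [hk, abs_mul] at h2
      simpa using h2
    have h4 : |k| ≤ (X : ℤ) / L := by
      rw [Int.le_ediv_iff_mul_le (by exact_mod_cast hL)]
      linarith [mul_comm (L : ℤ) |k|]
    simpa using h4
  have h1 : T.card ≤ 2 * (X / L) + 1 := by
    calc T.card ≤ _ := card_le_card hs
      _ ≤ _ := card_image_le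
      _ = 2 * (X / L) + 1 := by
        rw [Int.card_Icc]
        omega
  have h2 : ((X / L : ℕ) : ℝ) ≤ (X : ℝ) / L := Nat.cast_div_le
  have h3 : (T.card : ℝ) ≤ 2 * ((X / L : ℕ) : ℝ) + 1 := by exact_mod_cast h1
  calc (T.card : ℝ) ≤ 2 * ((X / L : ℕ) : ℝ) + 1 := h3
    _ ≤ 2 * ((X : ℝ) / L) + 1 := by linarith
    _ = 2 * X / L + 1 := by ring

/-- the bound for the parameter of the line in one coordinate -/
private theorem bound_s (A δ : ℕ) (t t' s d : ℤ) (hδ : 1 ≤ δ) (ht : t = δ * t') (ht0 : t ≠ 0)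
    (hA : |t| ≤ A) (hd : d = s * t') (hdA : |d| ≤ 2 * A) :
    |s| < 4 * δ * ((A / t.natAbs : ℕ) : ℤ) := by
  have htpos : 0 < t.natAbs := Int.natAbs_pos.2 ht0
  have hle : t.natAbs ≤ A := by
    have : (t.natAbs : ℤ) ≤ A := by simpa using hA
    exact_mod_cast this
  have hm1 : 1 ≤ A / t.natAbs := (Nat.one_le_div_iff htpos).2 hle
  have hlt : A < t.natAbs * (A / t.natAbs + 1) := Nat.lt_mul_div_succ A htpos
  have hlt' : (A : ℤ) < |t| * (((A / t.natAbs : ℕ) : ℤ) + 1) := by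
    have h5 : (A : ℤ) < (t.natAbs : ℤ) * (((A / t.natAbs : ℕ) : ℤ) + 1) := by exact_mod_cast hlt
    rwa [Int.natCast_natAbs] at h5
  set mA : ℤ := ((A / t.natAbs : ℕ) : ℤ) with hmA
  have hm1' : (1 : ℤ) ≤ mA := by rw [hmA]; exact_mod_cast hm1
  have htabs : 0 < |t| := abs_pos.2 ht0
  have hδ' : (1 : ℤ) ≤ δ := by exact_mod_cast hδ
  have h1 : |s| * |t| ≤ 2 * A * δ := by
    rw [ht, abs_mul]
    rw [hd, abs_mul] at hdA
    have h2 : |(δ : ℤ)| = δ := abs_of_nonneg (by positivity)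
    rw [h2]
    nlinarith
  have h2 : |s| * |t| < (2 * δ * (mA + 1)) * |t| := by
    have h3 : 2 * (A : ℤ) * δ < 2 * (|t| * (mA + 1)) * δ := by
      have : (0 : ℤ) < δ := by linarith
      nlinarith
    nlinarith
  have h3 : |s| < 2 * δ * (mA + 1) := lt_of_mul_lt_mul_right h2 htabs.le
  nlinarith

theorem hG1 : StG1 := by
  intro c A B t b w1 w2 hc ht hb htA hbB hw1 hw2 hdvd hne
  classical
  set δ : ℕ := Int.gcd t b with hδdef
  have hδ : 1 ≤ δ := Int.gcd_pos_of_ne_zero_left b ht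
  set κ : ℕ := Int.gcd (δ : ℤ) c with hκdef
  have hκ' : κ = Nat.gcd δ c := by
    rw [hκdef]; exact Int.gcd_natCast_natCast δ c
  set L : ℕ := Nat.lcm δ c with hLdef
  have hκL : κ * L = δ * c := by rw [hκ', hLdef]; exact Nat.gcd_mul_lcm δ c
  have hL : 1 ≤ L := Nat.lcm_pos (by omega) (by omega)
  set m : ℕ := mx A B (t, b) with hmdef
  obtain ⟨t', ht'⟩ : (δ : ℤ) ∣ t := Int.gcd_dvd_left t b
  obtain ⟨b', hb'⟩ : (δ : ℤ) ∣ b := Int.gcd_dvd_right t b
  have hδ0 : (δ : ℤ) ≠ 0 := by positivity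
  have ht'0 : t' ≠ 0 := by
    rintro rfl
    exact ht (by rw [ht']; ring)
  have hcop : IsCoprime t' b' := by
    have h1 : (δ : ℤ) = t * Int.gcdA t b + b * Int.gcdB t b := Int.gcd_eq_gcd_ab t b
    refine ⟨Int.gcdA t b, Int.gcdB t b, ?_⟩
    have h2 : (δ : ℤ) * (Int.gcdA t b * t' + Int.gcdB t b * b') = δ * 1 := by
      calc (δ : ℤ) * (Int.gcdA t b * t' + Int.gcdB t b * b')
          = (δ * t') * Int.gcdA t b + (δ * b') * Int.gcdB t b := by ring
        _ = t * Int.gcdA t b + b * Int.gcdB t b := by rw [← ht', ← hb']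
        _ = δ * 1 := by rw [← h1]; ring
    exact mul_left_cancel₀ hδ0 h2
  have hdvdL : ∀ n : ℤ, (δ : ℤ) ∣ n → (c : ℤ) ∣ n → (L : ℤ) ∣ n := by
    intro n h1 h2
    rw [Int.natCast_dvd] at h1 h2 ⊢
    exact Nat.lcm_dvd h1 h2
  have hA0 : (0 : ℤ) ≤ A := by positivity
  have hB0 : (0 : ℤ) ≤ B := by positivity
  -- the modulus is small
  have hL6 : L ≤ 6 * A * B := by
    have h1 : (L : ℤ) ∣ t * w2 - w1 * b := by
      refine hdvdL _ ?_ hdvd
      rw [ht', hb']
      exact ⟨t' * w2 - w1 * b', by ring⟩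
    have h2 : t * w2 - w1 * b ≠ 0 := sub_ne_zero.2 hne
    have h3 : (L : ℤ) ≤ |t * w2 - w1 * b| := Int.le_of_dvd (abs_pos.2 h2) ((dvd_abs _ _).2 h1)
    have h4 : |t * w2 - w1 * b| ≤ |t| * |w2| + |w1| * |b| := by
      calc |t * w2 - w1 * b| ≤ |t * w2| + |w1 * b| := abs_sub _ _
        _ = _ := by rw [abs_mul, abs_mul]
    have h5 : |t| * |w2| ≤ A * (3 * B) := mul_le_mul htA hw2 (abs_nonneg _) hA0
    have h6 : |w1| * |b| ≤ 3 * A * B := mul_le_mul hw1 hbB (abs_nonneg _) (by positivity)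
    have h7 : (L : ℤ) ≤ 6 * A * B := by linarith [mul_assoc (A : ℤ) 3 B, mul_comm (A : ℤ) 3]
    exact_mod_cast h7
  set S := (I A ×ˢ I B).filter fun p : ℤ × ℤ => (c : ℤ) ∣ t * p.2 - p.1 * b with hS
  have hmem : ∀ p ∈ S, |p.1| ≤ A ∧ |p.2| ≤ B ∧ (c : ℤ) ∣ t * p.2 - p.1 * b := by
    intro p hp
    rw [hS, mem_filter, mem_product] at hp
    obtain ⟨⟨h1, h2⟩, h3⟩ := hp
    simp only [I, mem_Icc] at h1 h2
    exact ⟨abs_le.2 h1, abs_le.2 h2, h3⟩
  -- fibres
  have hfib : ∀ a ∈ S.image (fun p => t * p.2 - p.1 * b),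
      (S.filter fun p => t * p.2 - p.1 * b = a).card ≤ 4 * δ * m := by
    intro a _
    have key : ∀ p ∈ (S.filter fun p => t * p.2 - p.1 * b = a),
        ∀ q ∈ (S.filter fun p => t * p.2 - p.1 * b = a),
        ∃ s : ℤ, p.1 - q.1 = s * t' ∧ p.2 - q.2 = s * b' ∧ |s| < 4 * δ * m := by
      intro p hp q hq
      rw [mem_filter] at hp hq
      obtain ⟨hp1, hp2⟩ := hp
      obtain ⟨hq1, hq2⟩ := hq
      obtain ⟨hpa, hpb, -⟩ := hmem p hp1
      obtain ⟨hqa, hqb, -⟩ := hmem q hq1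
      have e1 : t' * (p.2 - q.2) = (p.1 - q.1) * b' := by
        have h1 : (δ : ℤ) * (t' * (p.2 - q.2)) = δ * ((p.1 - q.1) * b') := by
          have h2 : t * p.2 - p.1 * b = t * q.2 - q.1 * b := by rw [hp2, hq2]
          rw [ht', hb'] at h2
          linarith
        exact mul_left_cancel₀ hδ0 h1
      obtain ⟨s, hs⟩ : t' ∣ p.1 - q.1 := by
        refine hcop.dvd_of_dvd_mul_right ?_
        exact ⟨p.2 - q.2, e1.symm⟩
      have e2 : p.2 - q.2 = s * b' := by
        rw [hs] at e1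
        have : t' * (p.2 - q.2) = t' * (s * b') := by rw [e1]; ring
        exact mul_left_cancel₀ ht'0 this
      refine ⟨s, by rw [hs]; ring, e2, ?_⟩
      have b1 : |s| < 4 * δ * ((A / t.natAbs : ℕ) : ℤ) := by
        refine bound_s A δ t t' s (p.1 - q.1) hδ ht' ht htA (by rw [hs]; ring) ?_
        calc |p.1 - q.1| ≤ |p.1| + |q.1| := abs_sub _ _
          _ ≤ 2 * A := by linarith
      have b2 : |s| < 4 * δ * ((B / b.natAbs : ℕ) : ℤ) := by
        refine bound_s B δ b b' s (p.2 - q.2) hδ hb' hb hbB e2 ?_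
        calc |p.2 - q.2| ≤ |p.2| + |q.2| := abs_sub _ _
          _ ≤ 2 * B := by linarith
      have hm : m = A / t.natAbs ∨ m = B / b.natAbs := by
        rw [hmdef]
        exact min_choice _ _
      rcases hm with hm | hm
      · rw [hm]; exact b1
      · rw [hm]; exact b2
    have hinj : Set.InjOn (fun p : ℤ × ℤ => p.1 / t')
        ((S.filter fun p => t * p.2 - p.1 * b = a : Finset (ℤ × ℤ)) : Set (ℤ × ℤ)) := by
      intro p hp q hq hpq
      obtain ⟨s, h1, h2, -⟩ := key p (mem_coe.1 hp) q (mem_coe.1 hq)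
      have h3 : p.1 / t' = q.1 / t' + s := by
        have : p.1 = q.1 + s * t' := by linarith
        rw [this, Int.add_mul_ediv_right _ _ ht'0]
      have h4 : s = 0 := by
        have : p.1 / t' = q.1 / t' := hpq
        omega
      subst h4
      exact Prod.ext (by linarith) (by linarith)
    rw [← card_image_of_injOn hinj]
    apply card_of_diff
    intro x hx y hy
    rw [mem_image] at hx hy
    obtain ⟨p, hp, rfl⟩ := hx
    obtain ⟨q, hq, rfl⟩ := hy
    obtain ⟨s, h1, -, h2⟩ := key p hp q hq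
    have h3 : p.1 / t' = q.1 / t' + s := by
      have : p.1 = q.1 + s * t' := by linarith
      rw [this, Int.add_mul_ediv_right _ _ ht'0]
    rw [h3]
    have h5 := le_abs_self s
    push_cast
    linarith
  have hcard : S.card ≤ 4 * δ * m * (S.image (fun p => t * p.2 - p.1 * b)).card :=
    card_le_mul_card_image S _ hfib
  have himg : (((S.image (fun p => t * p.2 - p.1 * b)).card : ℕ) : ℝ) ≤
      2 * ((2 * A * B : ℕ) : ℝ) / L + 1 := by
    apply card_mult _ _ _ hL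
    intro n hn
    rw [mem_image] at hn
    obtain ⟨p, hp, rfl⟩ := hn
    obtain ⟨h1, h2, h3⟩ := hmem p hp
    refine ⟨hdvdL _ ?_ h3, ?_⟩
    · rw [ht', hb']
      exact ⟨t' * p.2 - p.1 * b', by ring⟩
    · calc |t * p.2 - p.1 * b| ≤ |t * p.2| + |p.1 * b| := abs_sub _ _
        _ = |t| * |p.2| + |p.1| * |b| := by rw [abs_mul, abs_mul]
        _ ≤ A * B + A * B := by
          have h5 : |t| * |p.2| ≤ A * B := mul_le_mul htA h2 (abs_nonneg _) hA0
          have h6 : |p.1| * |b| ≤ A * B := mul_le_mul h1 hbB (abs_nonneg _) hA0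
          linarith
        _ = ((2 * A * B : ℕ) : ℤ) := by push_cast; ring
  have hLr : (0 : ℝ) < L := by exact_mod_cast hL
  have hcr : (0 : ℝ) < c := by exact_mod_cast hc
  have hκLr : (κ : ℝ) * L = δ * c := by exact_mod_cast hκL
  have hL6r : (L : ℝ) ≤ 6 * A * B := by exact_mod_cast hL6
  have himg2 : (((S.image (fun p => t * p.2 - p.1 * b)).card : ℕ) : ℝ) ≤ 10 * A * B / L := by
    refine himg.trans ?_
    have h1 : (1 : ℝ) ≤ 6 * A * B / L := by
      rw [le_div_iff₀ hLr]; linarith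
    have h2 : 2 * ((2 * A * B : ℕ) : ℝ) / L + 6 * A * B / L = 10 * A * B / L := by
      push_cast
      ring
    linarith
  have hfinal : (S.card : ℝ) ≤ 4 * δ * m * (10 * A * B / L) := by
    calc (S.card : ℝ) ≤ ((4 * δ * m * (S.image (fun p => t * p.2 - p.1 * b)).card : ℕ) : ℝ) := by
          exact_mod_cast hcard
      _ = 4 * δ * m * ((S.image (fun p => t * p.2 - p.1 * b)).card : ℝ) := by push_cast; ring
      _ ≤ _ := mul_le_mul_of_nonneg_left himg2 (by positivity)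
  have hδL : (δ : ℝ) / L = κ / c := by
    rw [div_eq_div_iff hLr.ne' hcr.ne']
    linarith
  calc ((S.card : ℕ) : ℝ) ≤ 4 * δ * m * (10 * A * B / L) := hfinal
    _ = 40 * A * B * m * (δ / L) := by ring
    _ = 40 * A * B * m * (κ / c) := by rw [hδL]
    _ = 40 * (A * B * κ * m / c) := by ring
    _ ≤ 50 * (A * B * κ * m / c) := by
      have : (0 : ℝ) ≤ A * B * κ * m / c := by positivity
      linarith
    _ = 50 * A * B * κ * m / c := by ring

end Pool.Agent.Helper6.AL
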