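import Pool.Agent.Helper79.AL.St1

set_option autoImplicit false

namespace Pool.Agent.Helper6.AL

open Matrix ComplexConjugate Pool.Agent.Helper94.YG
open Pool.Agent.Helper94.YF hiding StORB
open Pool.Agent.Helper89.OS Pool.Agent.Helper89.OC Pool.Agent.Helper79.AL

theorem isInt_conj (x : ℂ) (h : IsIntegral ℤ x) : IsIntegral ℤ (conj x) := by
  have h2 := h.map ((starRingEnd ℂ : ℂ →+* ℂ).toIntAlgHom)
  exact h2

theorem hETA : StETA := by
  intro hDZ hGLA hFCA I _ _ Z p b X hL h5 j j' ht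
  have hnd : ¬ p ∣ Z.d j' := by
    intro hd
    have hd' : p ∣ X.d j' := by rw [hL.lk.d]; exact hd
    exact ht (hDZ I p X h5 j' hd').1
  refine ⟨hnd, ?_⟩
  have hF := hFCA I Z
  have hG := hGLA I Z
  have hbb : b * b = b := hL.lk.idp.idem
  -- unitarity
  have huni : Z.rho (s2 b) * (Z.rho (s2 b))ᴴ = 1 :=
    mul_eq_one_comm.mp (Z.unitary (s2 b))
  have hR : Z.rho (s2 (1 - b)) = Z.rho Sm * (Z.rho (s2 b))ᴴ := by
    rw [hF.Sm_eq b hbb, Matrix.mul_assoc, huni, Matrix.mul_one]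
  have hRe : Z.rho (s2 (1 - b)) j' j =
      ∑ k, Z.rho Sm j' k * conj (Z.rho (s2 b) j k) := by
    conv_lhs => rw [hR]
    rw [Matrix.mul_apply]
    rfl
  have hsym : Z.rho (s2 (1 - b)) j j' = Z.rho (s2 (1 - b)) j' j := hF.sym (1 - b) j j'
  set T : ℂ := ∑ k, Cchi Z j' k * conj (X.s j k) with hT
  have hTint : IsIntegral ℤ T := by
    refine IsIntegral.sum _ fun k _ => ?_
    exact (hG.chi_int j' k).mul (isInt_conj _ (X.s_int j k))
  have hn : (Z.n : ℂ) = (p : ℂ) * (X.m : ℂ) := by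
    rw [hL.lk.n_eq]; push_cast; ring
  have key : (p : ℂ) ^ 2 * zz Z b X j j' = (Z.d j' : ℂ) * T := by
    have h1 : (p : ℂ) ^ 2 * zz Z b X j j' =
        (Z.n : ℂ) * (p : ℂ) * Z.rho (s2 (1 - b)) j' j := by
      unfold zz
      rw [hsym, hn]; ring
    rw [h1, hRe, hT, Finset.mul_sum, Finset.mul_sum]
    refine Finset.sum_congr rfl fun k _ => ?_
    have h2 : Sf Z j' k = (Z.d j' : ℂ) * Cchi Z j' k := hG.Sf_chi j' k
    unfold Sf at h2
    have h3 : conj (X.s j k) = (p : ℂ) * conj (Z.rho (s2 b) j k) := by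
      rw [hL.lk.s]
      show conj ((p : ℂ) * Z.rho (s2 b) j k) = _
      rw [map_mul, Complex.conj_natCast]
    rw [h3]
    linear_combination ((p : ℂ) * conj (Z.rho (s2 b) j k)) * h2
  have hzint : IsIntegral ℤ (zz Z b X j j') := by
    have h := (Pool.Agent.Helper33.OS.hENT Pool.Agent.Helper36.YF.hFUS
      Pool.Agent.Helper88.YF.hDUA I Z.toCentreRep (1 - b)).2 X.m X.z (fun i => hL.lk.z i) j j'
    exact h.1
  -- coprimality
  have hcop : Nat.Coprime (p ^ 2) (Z.d j') :=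
    Nat.Coprime.pow_left 2 ((Nat.Prime.coprime_iff_not_dvd X.prime).mpr hnd)
  have hbez : IsCoprime ((p ^ 2 : ℕ) : ℤ) ((Z.d j' : ℕ) : ℤ) :=
    Nat.isCoprime_iff_coprime.mpr hcop
  obtain ⟨u, v, huv⟩ := hbez
  have hdne : (Z.d j' : ℂ) ≠ 0 := by
    have := Z.d_pos j'
    exact_mod_cast this.ne'
  have huv' : (u : ℂ) * (p : ℂ) ^ 2 + (v : ℂ) * (Z.d j' : ℂ) = 1 := by
    have := congrArg (fun x : ℤ => (x : ℂ)) huv
    push_cast at this
    exact this
  have hfin : zz Z b X j j' / Z.d j' = (u : ℂ) * T + (v : ℂ) * zz Z b X j j' := by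
    rw [div_eq_iff hdne]
    linear_combination (-(zz Z b X j j')) * huv' + (u : ℂ) * key
  rw [hfin]
  refine IsIntegral.add ?_ ?_
  · exact (isIntegral_algebraMap (R := ℤ) (A := ℂ) (x := u)).mul hTint
  · exact (isIntegral_algebraMap (R := ℤ) (A := ℂ) (x := v)).mul hzint

end Pool.Agent.Helper6.AL
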